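import Mathlib

/-!
MP_6117a1_gt, Q1 (negated form). The submonoid `A` of those amenable functions which differ from the
identity at only finitely many points is not of the form `P_X` for a class `X` of metric spaces:
`A ⊆ P_X` forces every space in `X` to be discrete, and then every amenable function lies in `P_X`.
-/

set_option autoImplicit false

universe u

namespace Pool.Agent.Results.MP_6117a1_gt.FinitelyModified

open NNReal

/-- `ρ` is a metric on `Y`, with values in `[0, ∞)`. -/
structure IsMetric {Y : Type u} (ρ : Y → Y → ℝ≥0) : Prop where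
  eq_zero_iff : ∀ x y, ρ x y = 0 ↔ x = y
  symm : ∀ x y, ρ x y = ρ y x
  triangle : ∀ x y z, ρ x z ≤ ρ x y + ρ y z

/-- `X` is a class of nonempty metric spaces (a subclass of the class `M` of all nonempty metric
spaces): a predicate on pairs `(Y, ρ)` which only holds when `Y` is nonempty and `ρ` is a metric. -/
def IsMetricClass (X : (Y : Type u) → (Y → Y → ℝ≥0) → Prop) : Prop :=
  ∀ (Y : Type u) (ρ : Y → Y → ℝ≥0), X Y ρ → Nonempty Y ∧ IsMetric ρ

/-- The set `P_X` of all functions `f : [0, ∞) → [0, ∞)` such that `(Y, ρ) ∈ X` implies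
`(Y, f ∘ ρ) ∈ X`. -/
def preservers (X : (Y : Type u) → (Y → Y → ℝ≥0) → Prop) : Set (Function.End ℝ≥0) :=
  {f | ∀ (Y : Type u) (ρ : Y → Y → ℝ≥0), X Y ρ → X Y (fun x y => f (ρ x y))}

/-- `f` is amenable: `f⁻¹(0) = {0}`. -/
def Amenable (f : Function.End ℝ≥0) : Prop := ∀ x, f x = 0 ↔ x = 0

/-- The amenable functions which differ from the identity at finitely many points. -/
def finMod : Submonoid (Function.End ℝ≥0) where
  carrier := {f | Amenable f ∧ {x | f x ≠ x}.Finite}
  mul_mem' := by
    rintro f g ⟨hf, hf'⟩ ⟨hg, hg'⟩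
    refine ⟨fun x => ?_, (hf'.union hg').subset ?_⟩
    · change f (g x) = 0 ↔ x = 0
      rw [hf, hg]
    · intro x hx
      by_contra h
      simp only [Set.mem_union, Set.mem_ofPred_eq, not_or, not_not] at h
      apply hx
      change f (g x) = x
      rw [h.2, h.1]
  one_mem' := by
    refine ⟨fun x => Iff.rfl, ?_⟩
    have : {x : ℝ≥0 | (1 : Function.End ℝ≥0) x ≠ x} = ∅ := by
      ext x
      constructor
      · intro h
        exact absurd rfl h
      · intro h
        exact absurd h (Set.notMem_empty x)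
    rw [this]
    exact Set.finite_empty

theorem update_mem (a b : ℝ≥0) (ha : a ≠ 0) (hb : b ≠ 0) :
    (Function.update (id : ℝ≥0 → ℝ≥0) a b : Function.End ℝ≥0) ∈ finMod := by
  refine ⟨fun x => ?_, (Set.finite_singleton a).subset ?_⟩
  · by_cases h : x = a
    · subst h
      simp [ha, hb]
    · rw [Function.update_of_ne h]
      rfl
  · intro x hx
    by_contra h
    apply hx
    rw [Function.update_of_ne h]
    rfl

theorem bad (a b c : ℝ≥0) (ha : a ≠ 0) (hab : b ≠ a) (hac : c ≠ a) :
    ∃ f ∈ finMod, f b + f c < f a := by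
  refine ⟨_, update_mem a (b + c + 1) ha (by positivity), ?_⟩
  rw [Function.update_self, Function.update_of_ne hab, Function.update_of_ne hac]
  simp

theorem discrete {X : (Y : Type u) → (Y → Y → ℝ≥0) → Prop} (hX : IsMetricClass X)
    (hA : (finMod : Set (Function.End ℝ≥0)) ⊆ preservers X) {Y : Type u} {ρ : Y → Y → ℝ≥0}
    (hY : X Y ρ) {x y z : Y} (hxy : x ≠ y) (hyz : y ≠ z) : ρ x y = ρ y z := by
  have hm := (hX Y ρ hY).2
  by_contra hne
  have hxz : x ≠ z := by
    rintro rfl
    exact hne (hm.symm x y)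
  have h1 : ρ x y ≠ 0 := fun h => hxy ((hm.eq_zero_iff _ _).1 h)
  have h2 : ρ y z ≠ 0 := fun h => hyz ((hm.eq_zero_iff _ _).1 h)
  have h3 : ρ x z ≠ 0 := fun h => hxz ((hm.eq_zero_iff _ _).1 h)
  by_cases hc : ρ x z = ρ x y
  · -- the value `ρ y z` occurs once
    obtain ⟨f, hf, hlt⟩ := bad (ρ y z) (ρ x y) (ρ x z) h2 hne (by rw [hc]; exact hne)
    have hm' := (hX Y _ (hA hf Y ρ hY)).2
    have ht := hm'.triangle y x z
    simp only [hm.symm y x] at ht
    exact absurd ht (not_le.2 hlt)
  · by_cases hc' : ρ x z = ρ y z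
    · obtain ⟨f, hf, hlt⟩ := bad (ρ x y) (ρ y z) (ρ x z) h1 (Ne.symm hne) hc
      have hm' := (hX Y _ (hA hf Y ρ hY)).2
      have ht := hm'.triangle x z y
      simp only [hm.symm z y] at ht
      rw [add_comm] at ht
      exact absurd ht (not_le.2 hlt)
    · obtain ⟨f, hf, hlt⟩ := bad (ρ x z) (ρ x y) (ρ y z) h3 (Ne.symm hc) (Ne.symm hc')
      have hm' := (hX Y _ (hA hf Y ρ hY)).2
      have ht := hm'.triangle x y z
      exact absurd ht (not_le.2 hlt)

theorem discrete' {X : (Y : Type u) → (Y → Y → ℝ≥0) → Prop} (hX : IsMetricClass X)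
    (hA : (finMod : Set (Function.End ℝ≥0)) ⊆ preservers X) {Y : Type u} {ρ : Y → Y → ℝ≥0}
    (hY : X Y ρ) {x y z w : Y} (hxy : x ≠ y) (hzw : z ≠ w) : ρ x y = ρ z w := by
  by_cases h : y = z
  · subst h
    exact discrete hX hA hY hxy hzw
  · rw [discrete hX hA hY hxy h, discrete hX hA hY h hzw]

theorem all_amenable {X : (Y : Type u) → (Y → Y → ℝ≥0) → Prop} (hX : IsMetricClass X)
    (hA : (finMod : Set (Function.End ℝ≥0)) ⊆ preservers X) (g : Function.End ℝ≥0)
    (hg : Amenable g) : g ∈ preservers X := by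
  intro Y ρ hY
  have hm := (hX Y ρ hY).2
  by_cases hsub : ∃ x y : Y, x ≠ y
  · obtain ⟨x, y, hxy⟩ := hsub
    have hk : ρ x y ≠ 0 := fun h => hxy ((hm.eq_zero_iff _ _).1 h)
    have hgk : g (ρ x y) ≠ 0 := fun h => hk ((hg _).1 h)
    have := hA (update_mem (ρ x y) (g (ρ x y)) hk hgk) Y ρ hY
    convert this using 3 with z w
    by_cases hzw : z = w
    · subst hzw
      have h0 : ρ z z = 0 := (hm.eq_zero_iff _ _).2 rfl
      rw [h0, Function.update_of_ne (Ne.symm hk)]
      exact (hg 0).2 rfl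
    · rw [← discrete' hX hA hY hxy hzw, Function.update_self]
  · push Not at hsub
    convert hY using 3 with z w
    have h0 : ρ z w = 0 := (hm.eq_zero_iff _ _).2 (hsub z w)
    rw [h0]
    exact (hg 0).2 rfl

/-- There is a submonoid `A` of the monoid of amenable functions `[0, ∞) → [0, ∞)` under
composition such that `P_X ≠ A` for every class `X` of nonempty metric spaces. -/
theorem result : ∃ A : Submonoid (Function.End ℝ≥0), (∀ f ∈ A, Amenable f) ∧
    ∀ X : (Y : Type u) → (Y → Y → ℝ≥0) → Prop, IsMetricClass X →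
      preservers X ≠ (A : Set (Function.End ℝ≥0)) := by
  refine ⟨finMod, fun f hf => hf.1, ?_⟩
  intro X hX hP
  have hmem := all_amenable hX hP.ge (fun x => 2 * x) (fun x => by simp)
  rw [hP] at hmem
  have hfin := hmem.2
  apply Set.not_infinite.2 hfin
  have : Set.range (fun n : ℕ => ((n : ℝ≥0) + 1)) ⊆ {x : ℝ≥0 | 2 * x ≠ x} := by
    rintro _ ⟨n, rfl⟩
    simp only [Set.mem_ofPred_eq, ne_eq]
    intro h
    have h' : (2 : ℝ) * ((n : ℝ) + 1) = (n : ℝ) + 1 := by
      have := congrArg NNReal.toReal h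
      simpa using this
    have : (n : ℝ) + 1 > 0 := by positivity
    linarith
  refine Set.Infinite.mono this (Set.infinite_range_of_injective ?_)
  intro a b hab
  simpa using hab

end Pool.Agent.Results.MP_6117a1_gt.FinitelyModified
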